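import Pool.Agent.helper60.DA.SpecV

/-!
# Row dv:PHD (MP_fb2c2a_nt): derivatives and degrees of `ph`
-/

namespace Pool.Agent.helper60.DA

open Polynomial Finset Pool.Agent.helper60.DK

theorem PHD_cancel {p : ℕ} (hp : p ≠ 0) {f g : ℤ[X]} (h : (p : ℤ[X]) * f = (p : ℤ[X]) * g) :
    f = g := by
  refine mul_left_cancel₀ ?_ h
  exact_mod_cast hp

theorem PHD_der (p : ℕ) [hp : Fact p.Prime] (u v : ℤ[X]) :
    derivative (ph p u v) =
      (u + v) ^ (p - 1) * derivative (u + v) - u ^ (p - 1) * derivative u
        - v ^ (p - 1) * derivative v := by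
  apply PHD_cancel hp.out.ne_zero
  have h1 : (p : ℤ[X]) * derivative (ph p u v) = derivative ((p : ℤ[X]) * ph p u v) := by
    rw [derivative_mul, derivative_natCast, zero_mul, zero_add]
  rw [h1, ph_spec, derivative_sub, derivative_sub, derivative_pow, derivative_pow, derivative_pow]
  simp only [map_natCast]
  ring

theorem PHD : PHD_stmt := by
  intro p hp hp5
  have hder : ∀ u v : ℤ[X], derivative (ph p (u.map (Int.castRingHom (ZMod p)))
      (v.map (Int.castRingHom (ZMod p)))) = (derivative (ph p u v)).map (Int.castRingHom (ZMod p)) := by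
    intro u v
    have h := map_ph p (mapRingHom (Int.castRingHom (ZMod p))) u v
    rw [coe_mapRingHom] at h
    rw [← h, derivative_map]
  refine ⟨?_, ?_, ?_, ?_⟩
  · intro a
    have h1 := hder X (a : ℤ[X])
    rw [PHD_der] at h1
    simp only [map_X, Polynomial.map_intCast, derivative_add, derivative_X, derivative_intCast,
      add_zero, mul_one, mul_zero, sub_zero, Polynomial.map_sub, Polynomial.map_pow,
      Polynomial.map_add] at h1
    exact h1
  · have h1 := hder 1 (4 * X)
    rw [PHD_der] at h1
    have h4 : ((4 : (ZMod p)[X]) * X) ^ (p - 1) = X ^ (p - 1) := by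
      have h5 : ((4 : ZMod p)) ^ (p - 1) = 1 := by
        apply ZMod.pow_card_sub_one_eq_one
        intro h
        have h6 : ((4 : ℕ) : ZMod p) = 0 := by exact_mod_cast h
        rw [ZMod.natCast_eq_zero_iff] at h6
        have := Nat.le_of_dvd (by norm_num) h6
        omega
      have h7 : (4 : (ZMod p)[X]) = C (4 : ZMod p) := (map_ofNat C 4).symm
      rw [mul_pow, h7, ← C_pow, h5, C_1, one_mul]
    have hd : derivative (4 * X : ℤ[X]) = 4 := by
      rw [derivative_mul, derivative_X, mul_one, derivative_ofNat, zero_mul, zero_add]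
    rw [derivative_add, hd, derivative_one, zero_add, mul_zero, sub_zero] at h1
    simp only [Polynomial.map_one, Polynomial.map_mul, Polynomial.map_ofNat, map_X,
      Polynomial.map_sub, Polynomial.map_pow, Polynomial.map_add] at h1
    rw [h1, h4]
    ring
  · intro a
    unfold ph
    apply natDegree_sum_le_of_forall_le
    intro j hj
    have hj' := mem_Ioo.mp hj
    rw [← Int.cast_pow]
    refine natDegree_mul_le.trans ?_
    rw [natDegree_intCast, add_zero]
    refine natDegree_mul_le.trans ?_
    rw [natDegree_natCast, zero_add]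
    have h2 : ((X : (ZMod p)[X]) ^ j).natDegree ≤ j := natDegree_X_pow_le _
    omega
  · unfold ph
    apply natDegree_sum_le_of_forall_le
    intro j hj
    have hj' := mem_Ioo.mp hj
    rw [one_pow, mul_one, mul_pow]
    refine natDegree_mul_le.trans ?_
    rw [natDegree_natCast, zero_add]
    refine natDegree_mul_le.trans ?_
    have h1 : ((4 : (ZMod p)[X]) ^ (p - j)).natDegree ≤ 0 := by
      have h7 : (4 : (ZMod p)[X]) = C (4 : ZMod p) := (map_ofNat C 4).symm
      rw [h7, ← C_pow, natDegree_C]
    have h2 : ((X : (ZMod p)[X]) ^ (p - j)).natDegree ≤ p - j := natDegree_X_pow_le _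
    omega

end Pool.Agent.helper60.DA
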